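import Pool.Agent.X26.LF.Stm

/-! Part ITE of project LF (MP_07add5_co): iteration of the stage. -/

set_option autoImplicit false

namespace Pool.Agent.X9.LF
open Finset Pool.Agent.X26.LF

theorem cov_mono {m p : ℕ} {u : Fin m → ℤ} {A B : Finset (ZMod p)} (h : A ⊆ B) {s : ZMod p}
    (hs : Cov u p A s) : Cov u p B s := by
  obtain ⟨a, ha, h1⟩ := hs
  exact ⟨a, fun i => h (ha i), h1⟩

theorem t_ITE : S_ITE := by
  intro hst hsiz m u v hm
  classical
  obtain ⟨P, hP⟩ := hsiz m (8 * m.factorial + 8 * (m ^ 2 * 4 ^ m)) hm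
  refine ⟨P, fun p hp hPp hnp => ?_⟩
  obtain ⟨N, hN1, hN2⟩ := hP p hPp
  have : Fact p.Prime := ⟨hp⟩
  have c1 : 8 * m.factorial * p ≤ N.descFactorial m := by
    refine le_trans ?_ hN1
    gcongr
    omega
  have c2 : 8 * (m ^ 2 * 4 ^ m) * ((Nat.log 2 p + 2) * N) ^ (2 * m - 1) ≤ p ^ 2 := by
    refine le_trans ?_ hN2
    gcongr
    omega
  have key : ∀ k : ℕ, k ≤ Nat.log 2 p + 1 → ∃ A : Finset (ZMod p), A.card ≤ k * N ∧ Free v p A ∧
      ∀ U' : Finset (ZMod p), (∀ s ∈ U', ¬ Cov u p A s) → 2 ^ k * U'.card ≤ p := by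
    intro k
    induction k with
    | zero =>
      intro _
      refine ⟨∅, by simp, ?_, fun U' _ => ?_⟩
      · intro K a ha
        have hK : K = ∅ := by
          rw [Finset.eq_empty_iff_forall_notMem]
          intro i hi
          exact absurd (ha i hi) (Finset.notMem_empty _)
        rw [hK, Finset.sum_empty]
        exact zero_ne_one
      · rw [pow_zero, one_mul]
        calc U'.card ≤ (Finset.univ : Finset (ZMod p)).card := Finset.card_le_univ _
          _ = p := by rw [Finset.card_univ, ZMod.card]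
    | succ k ih =>
      intro hk
      obtain ⟨A, hA1, hA2, hA3⟩ := ih (by omega)
      have hc : 8 * (m ^ 2 * 4 ^ m * (A.card + N) ^ (2 * m - 1)) ≤ p ^ 2 := by
        refine le_trans ?_ c2
        rw [← mul_assoc]
        have h1 : A.card + N ≤ (Nat.log 2 p + 2) * N := by
          calc A.card + N ≤ k * N + N := by omega
            _ = (k + 1) * N := by ring
            _ ≤ (Nat.log 2 p + 2) * N := Nat.mul_le_mul_right _ (by omega)
        gcongr
      obtain ⟨X, hX1, hX2, hX3⟩ := hst m p N u v A (univ.filter fun s => ¬ Cov u p A s)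
        (by omega) hnp hA2 c1 hc
      refine ⟨A ∪ X, ?_, hX2, fun U' hU' => ?_⟩
      · calc (A ∪ X).card ≤ A.card + X.card := Finset.card_union_le _ _
          _ ≤ k * N + N := by omega
          _ = (k + 1) * N := by ring
      · have h1 : 2 * U'.card ≤ (univ.filter fun s => ¬ Cov u p A s).card := by
          refine hX3 U' (fun s hs => ?_) (fun s hs h => ?_)
          · rw [Finset.mem_filter]
            exact ⟨Finset.mem_univ _, fun h => hU' s hs (cov_mono Finset.subset_union_left h)⟩
          · exact hU' s hs (cov_mono Finset.subset_union_right h)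
        have h2 := hA3 (univ.filter fun s => ¬ Cov u p A s)
          (fun s hs => (Finset.mem_filter.1 hs).2)
        calc 2 ^ (k + 1) * U'.card = 2 ^ k * (2 * U'.card) := by ring
          _ ≤ 2 ^ k * (univ.filter fun s => ¬ Cov u p A s).card := Nat.mul_le_mul_left _ h1
          _ ≤ p := h2
  obtain ⟨A, -, hA2, hA3⟩ := key (Nat.log 2 p + 1) le_rfl
  refine ⟨A, hA2, fun s => ?_⟩
  by_contra hs
  have h1 := hA3 {s} (fun t ht => by rw [Finset.mem_singleton.1 ht]; exact hs)
  rw [Finset.card_singleton, mul_one] at h1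
  have h2 : p < 2 ^ (Nat.log 2 p + 1) := Nat.lt_pow_succ_log_self (by norm_num) p
  omega

end Pool.Agent.X9.LF
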